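import Pool.Agent.J4H63.KS.Asm
import Pool.Agent.J4H91.KS.Cpl
import Pool.Agent.J4H16.KS.Ack

set_option autoImplicit false

/-! Project KS: the sparsification lemma in constant depth for k-CNFs, and Hypothesis H for
k-CNF-SAT. -/

namespace Pool.Agent.J4H63.KS

open Finset Pool.Agent.J4H64.SS Pool.Agent.J4H95.SP

theorem t_SPL : S_SPL := spl_of J4H91.KS.t_LVL J4H91.KS.t_CPLK J4H16.KS.t_ACK

theorem H_iff_HypK (k : ℕ) (hk : 3 ≤ k) : HypH ↔ HypK k := iff_of t_SPL k hk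

theorem sparsifyK (k : ℕ) (ε : ℝ) (hε : 0 < ε) : ∃ B K d : ℕ, ∀ n : ℕ, 1 ≤ n →
    ∃ (s : ℕ) (ψ : Fin s → (ClK k n → Bool) → ClK k n → Bool),
      (s : ℝ) ≤ (2 : ℝ) ^ (ε * (n : ℝ)) ∧
      (∀ t q, ∃ C : Circ (ClK k n), C.WF ∧ C.Depth d ∧ C.m ≤ (2 * n) ^ K ∧
        ∀ x, C.Acc x ↔ ψ t x q = true) ∧
      (∀ t x (l : Fin n × Bool),
        (univ.filter (fun c : ClK k n => ψ t x c = true ∧ l ∈ c.1)).card ≤ B) ∧
      (∀ t x a, ByK a (ψ t x) → ByK a x) ∧ ∀ x a, ByK a x → ∃ t, ByK a (ψ t x) :=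
  sparsify_of t_SPL k ε hε

end Pool.Agent.J4H63.KS
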