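import Pool.Agent.J4H63.KS.Stm
import Pool.Agent.J4H63.IS.A5
import Pool.Agent.J4H87.SP.Acp

set_option autoImplicit false

/-! (HKB): from 3-CNF to k-CNF. -/

namespace Pool.Agent.J4H63.KS

open Finset Pool.Agent.J4H64.SS Pool.Agent.J4H95.SP

/-- a 3-CNF as a k-CNF -/
def up {k n : ℕ} (x : Cl n → Bool) (c : ClK k n) : Bool :=
  if h : c.1.card ≤ 3 then x ⟨c.1, h⟩ else false

theorem satK_up {k n : ℕ} (hk : 3 ≤ k) (x : Cl n → Bool) : SatK (up (k := k) x) ↔ Sat x := by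
  constructor
  · rintro ⟨a, ha⟩
    refine ⟨a, fun c hc => ha ⟨c.1, c.2.trans hk⟩ ?_⟩
    simp only [up]
    rw [dif_pos c.2]
    exact hc
  · rintro ⟨a, ha⟩
    refine ⟨a, fun c hc => ?_⟩
    simp only [up] at hc
    split_ifs at hc with h
    exact ha _ hc

theorem t_HKB : S_HKB := by
  classical
  intro _ k hk
  rintro ⟨δ, hδ, hS⟩
  obtain ⟨N₁, hN₁⟩ := J4H17.SP.poly_le (δ / 2) (by positivity) 5
  refine ⟨δ / 2, by positivity, fun d N₀ => ?_⟩
  obtain ⟨n, hn, hn1, hno⟩ := hS (d + (2 + 1)) (max N₀ N₁)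
  refine ⟨n, (le_max_left _ _).trans hn, hn1, ?_⟩
  rintro ⟨D, hwf, hd, hsize, hacc⟩
  refine hno ?_
  have hne : Nonempty (Cl n) := ⟨⟨∅, by simp⟩⟩
  obtain ⟨C, g1, g2, g3, g4⟩ := t_SUB (Cl n) (ClK k n) (2 * n) d 2 D (by omega) hwf hd
    (fun x => up x) (fun q => by
      by_cases h : q.1.card ≤ 3
      · have e : (fun x : Cl n → Bool => up x q = true) = fun x => x ⟨q.1, h⟩ = true := by
          funext x
          simp [up, h]
        rw [e]
        exact AC.inp _ _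
      · have e : (fun x : Cl n → Bool => up x q = true) = fun _ => False := by
          funext x
          simp [up, h]
        rw [e]
        exact Pool.Agent.J4H87.SP.ac_const False)
  refine ⟨C, g1, g2, ?_, fun x => ?_⟩
  · have hW : ((((2 * n) ^ 5) : ℕ) : ℝ) ≤ (2 : ℝ) ^ (δ / 2 * (n : ℝ)) := by
      exact_mod_cast hN₁ n ((le_max_right _ _).trans hn)
    have h1 : 1 + (2 * n) ^ 4 ≤ (2 * n) ^ 5 := by
      have h2 : 1 ≤ (2 * n) ^ 4 := Nat.one_le_pow _ _ (by omega)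
      have h3 : (2 * n) ^ 5 = 2 * n * (2 * n) ^ 4 := by ring
      rw [h3]
      nlinarith
    have hW' : (1 : ℝ) + (((2 * n) ^ 4 : ℕ) : ℝ) ≤ (2 : ℝ) ^ (δ / 2 * (n : ℝ)) := by
      refine le_trans ?_ hW
      exact_mod_cast h1
    have hcl : (Fintype.card (Cl n) : ℝ) ≤ (Fintype.card (ClK k n) : ℝ) := by
      have : Function.Injective (fun c : Cl n => (⟨c.1, c.2.trans hk⟩ : ClK k n)) := by
        intro c c' h
        have h' := congrArg Subtype.val h
        exact Subtype.ext h'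
      exact_mod_cast Fintype.card_le_of_injective _ this
    have g3' : (C.m : ℝ) ≤ (D.m : ℝ) + (Fintype.card (ClK k n) : ℝ) *
        (((2 * n) ^ 4 : ℕ) : ℝ) := by
      exact_mod_cast g3
    set W : ℝ := (((2 * n) ^ 4 : ℕ) : ℝ) with hWd
    have hW0 : 0 ≤ W := Nat.cast_nonneg _
    set L : ℝ := (Fintype.card (ClK k n) : ℝ) with hL
    set M : ℝ := (D.m : ℝ) with hM
    have hM0 : 0 ≤ M := Nat.cast_nonneg _
    have hL0 : 0 ≤ L := Nat.cast_nonneg _
    have e1 : (2 : ℝ) ^ (δ * (n : ℝ)) = (2 : ℝ) ^ (δ / 2 * (n : ℝ)) *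
        (2 : ℝ) ^ (δ / 2 * (n : ℝ)) := by
      rw [← Real.rpow_add (by norm_num)]
      congr 1
      ring
    rw [e1]
    calc (Fintype.card (Cl n) : ℝ) + (C.m : ℝ) ≤ L + (M + L * W) := add_le_add hcl g3'
      _ ≤ (L + M) * (1 + W) := by nlinarith
      _ ≤ _ := mul_le_mul hsize hW' (by linarith) (by positivity)
  · rw [g4, hacc, satK_up hk]

end Pool.Agent.J4H63.KS
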