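import Pool.Agent.J4H63.KS.Stm

set_option autoImplicit false

/-! (STEP) -/

namespace Pool.Agent.J4H63.KS

open Finset Pool.Agent.J4H64.SS Pool.Agent.J4H95.SP

/-- averaging: few elements of `I` have a large degree -/
theorem few_large {V : Type} [DecidableEq V] (I : Finset V) (f : V → ℕ) (k B m : ℕ) (hB : 0 < B)
    (h : ∑ x ∈ I, f x ≤ B * m) :
    k * (I.filter (fun x => k * B < f x)).card ≤ m := by
  have h1 : ∑ x ∈ I.filter (fun x => k * B < f x), k * B ≤ ∑ x ∈ I, f x :=
    (sum_le_sum fun x hx => (mem_filter.1 hx).2.le).trans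
      (sum_le_sum_of_subset (filter_subset _ _))
  rw [sum_const, smul_eq_mul] at h1
  have h2 : B * (k * (I.filter (fun x => k * B < f x)).card) ≤ B * m := by
    calc B * (k * (I.filter (fun x => k * B < f x)).card)
        = (I.filter (fun x => k * B < f x)).card * (k * B) := by ring
      _ ≤ B * m := h1.trans h
  exact Nat.le_of_mul_le_mul_left h2 hB

/-- A rich kernel which is hit is declared valid. -/
theorem rich_valid {V : Type} [DecidableEq V] {r t b g : ℕ} (hb : 1 ≤ b) {H : Finset V → Prop}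
    {I T κ : Finset V} {y : V} (hr : ∀ e, H e → e.card = r) (hyI : y ∉ I) (hyκ : y ∈ κ)
    (hκ : κ.card < r) (f : Fin g → Finset V) (hf : ∀ l, H (f l) ∧ (f l ∩ I).card = t ∧ κ ⊆ f l)
    (hf2 : ∀ l l', l ≠ l' → f l ∩ f l' = κ)
    (hL : b ≤ (univ.filter (fun l => (f l ∩ I) \ κ ⊆ T)).card) : Vd r t b T H κ := by
  classical
  set L := univ.filter (fun l => (f l ∩ I) \ κ ⊆ T) with hLd
  have hLmem : ∀ l ∈ L, (f l ∩ I) \ κ ⊆ T := fun l hl => (mem_filter.1 hl).2
  have hcard : ∀ l, ((f l ∩ I) \ κ).card = t - (κ ∩ I).card := by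
    intro l
    have h1 : (f l ∩ I) \ κ = (f l ∩ I) \ (κ ∩ I) := by
      ext v; simp only [mem_sdiff, mem_inter]; tauto
    rw [h1, card_sdiff_of_subset (inter_subset_inter_right (hf l).2.2), (hf l).2.1]
  have hle : ∀ l : Fin g, (κ ∩ I).card ≤ t := by
    intro l
    rw [← (hf l).2.1]
    exact card_le_card (inter_subset_inter_right (hf l).2.2)
  by_cases hc : ∃ l ∈ L, f l \ I ⊆ κ
  · obtain ⟨l, hl, hlκ⟩ := hc
    left
    refine ⟨t - (κ ∩ I).card, ?_, Nat.sub_le _ _, (f l ∩ I) \ κ, hLmem l hl, hcard l,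
      sdiff_disjoint, ?_⟩
    · rw [← hcard l, Nat.one_le_iff_ne_zero, Ne, card_eq_zero]
      intro h0
      have h1 : f l ⊆ κ := by
        intro v hv
        by_cases hvI : v ∈ I
        · by_contra hvκ
          have : v ∈ (f l ∩ I) \ κ := mem_sdiff.2 ⟨mem_inter.2 ⟨hv, hvI⟩, hvκ⟩
          rw [h0] at this
          exact absurd this (notMem_empty v)
        · exact hlκ (mem_sdiff.2 ⟨hv, hvI⟩)
      have h2 := card_le_card h1
      rw [hr _ (hf l).1] at h2
      omega
    · have : (f l ∩ I) \ κ ∪ κ = f l := by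
        ext v
        simp only [mem_union, mem_sdiff, mem_inter]
        constructor
        · rintro (⟨⟨h, _⟩, _⟩ | h)
          · exact h
          · exact (hf l).2.2 h
        · intro h
          by_cases hv : v ∈ κ
          · exact Or.inr hv
          · left
            refine ⟨⟨h, ?_⟩, hv⟩
            by_contra hvI
            exact hv (hlκ (mem_sdiff.2 ⟨h, hvI⟩))
      rw [this]
      exact (hf l).1
  · push Not at hc
    right
    obtain ⟨L', hL', hL'c⟩ := exists_subset_card_eq hL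
    have hσ : ∀ l, κ ⊆ f l \ ((f l ∩ I) \ κ) := by
      intro l v hv
      simp only [mem_sdiff, mem_inter]
      exact ⟨(hf l).2.2 hv, fun h => h.2 hv⟩
    have hun : ∀ l, (f l ∩ I) \ κ ∪ f l \ ((f l ∩ I) \ κ) = f l := by
      intro l
      exact union_sdiff_of_subset (sdiff_subset.trans inter_subset_left)
    have hJ : ∀ l, f l \ I ⊆ f l \ ((f l ∩ I) \ κ) := by
      intro l v hv
      simp only [mem_sdiff, mem_inter] at hv ⊢
      exact ⟨hv.1, fun h => hv.2 h.1.2⟩
    refine ⟨⟨y, hyκ⟩, t - (κ ∩ I).card, Nat.sub_le _ _, ?_, ?_,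
      L'.image (fun l => f l \ ((f l ∩ I) \ κ)), ?_, ?_⟩
    · have h1 : (κ ∩ I).card < κ.card := by
        apply card_lt_card
        refine ⟨inter_subset_left, fun h => hyI (mem_inter.1 (h hyκ)).2⟩
      omega
    · obtain ⟨l, hl⟩ : L'.Nonempty := by
        rw [← card_pos, hL'c]; omega
      have hl' := hL' hl
      have h1 : κ.card < (f l \ ((f l ∩ I) \ κ)).card := by
        apply card_lt_card
        refine ⟨hσ l, fun h => hc l hl' ((hJ l).trans h)⟩
      have h2 : ((f l ∩ I) \ κ).card + (f l \ ((f l ∩ I) \ κ)).card = r := by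
        rw [← card_union_of_disjoint disjoint_sdiff, hun l, hr _ (hf l).1]
      rw [hcard l] at h2
      omega
    · rw [card_image_of_injOn, hL'c]
      intro l hl l' hl' h
      by_contra hne
      apply hc l (hL' hl)
      rw [← hf2 l l' hne]
      intro v hv
      have h1 := hJ l hv
      simp only at h
      rw [h] at h1
      exact mem_inter.2 ⟨(mem_sdiff.1 hv).1, (mem_sdiff.1 h1).1⟩
    · intro e he
      obtain ⟨l, hl, rfl⟩ := mem_image.1 he
      refine ⟨hσ l, (f l ∩ I) \ κ, hLmem l (hL' hl), hcard l, disjoint_sdiff, ?_⟩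
      rw [hun l]
      exact (hf l).1

theorem t_STEP : S_HIT → S_TREE → S_STEP := by
  classical
  intro hHIT hTREE r t D q hq ht htr
  set b := 2 ^ r * D + 1 with hbd
  have hr0 : 0 < r := by omega
  have hqr : 1 ≤ q * r := Nat.mul_pos hq hr0
  have hg := fun Q => hHIT t b (q * r) Q hqr
  choose g hg using hg
  let P : ℕ → ℕ := fun j => Nat.rec 1 (fun _ p => p * (r * g p + 1)) j
  have hP1 : ∀ j, P (j + 1) = P j * (r * g (P j) + 1) := fun j => rfl
  have hP0 : ∀ j, 0 < P j := by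
    intro j
    induction j with
    | zero => exact Nat.one_pos
    | succ j ih => rw [hP1]; exact Nat.mul_pos ih (Nat.succ_pos _)
  have hprod : ∀ j, ∏ i ∈ Ico 1 j, (r * g (P i) + 1) ≤ P j := by
    intro j
    have h1 : ∀ j, ∏ i ∈ range j, (r * g (P i) + 1) = P j := by
      intro j
      induction j with
      | zero => rfl
      | succ j ih => rw [prod_range_succ, ih, hP1]
    rw [← h1 j]
    apply prod_le_prod_of_subset_of_one_le'
    · intro i hi
      rw [mem_Ico] at hi
      exact mem_range.2 hi.2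
    · intro i _ _
      omega
  refine ⟨D + q * (t * P r), fun V _ _ H I hH hD => ?_⟩
  set m := Fintype.card V with hm
  let E : V → Finset (Finset V) := fun y =>
    univ.filter (fun e : Finset V => H e ∧ y ∈ e ∧ (e ∩ I).card = t)
  have hE : ∀ y, ∀ e ∈ E y, e.card = r ∧ {y} ⊆ e := by
    intro y e he
    obtain ⟨_, h1, h2, _⟩ := mem_filter.1 he
    exact ⟨(hH e h1).1, singleton_subset_iff.2 h2⟩
  have hT := fun y => hTREE V r (fun i => g (P i)) (E y) {y} (hE y)
  choose 𝒯 h𝒯1 h𝒯2 h𝒯3 using hT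
  simp only [card_singleton] at h𝒯1 h𝒯3
  let J : Finset V := univ.filter (fun y => y ∉ I)
  let K : ℕ → Finset (V × Finset V) := fun j =>
    J.biUnion (fun y => ((𝒯 y).filter (fun κ => κ.card = j)).image (fun κ => (y, κ)))
  have hK : ∀ j p, p ∈ K j → p.1 ∉ I ∧ p.2 ∈ 𝒯 p.1 ∧ p.2.card = j := by
    intro j p hp
    obtain ⟨y, hy, hp⟩ := mem_biUnion.1 hp
    obtain ⟨κ, hκ, rfl⟩ := mem_image.1 hp
    obtain ⟨h1, h2⟩ := mem_filter.1 hκ
    exact ⟨(mem_filter.1 hy).2, h1, h2⟩
  have hKc : ∀ j, (K j).card ≤ P j * m := by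
    intro j
    calc (K j).card ≤ ∑ y ∈ J, (((𝒯 y).filter (fun κ => κ.card = j)).image
          (fun κ => (y, κ))).card := card_biUnion_le
      _ ≤ ∑ y ∈ J, P j := sum_le_sum fun y _ =>
          card_image_le.trans ((h𝒯1 y j).trans (hprod j))
      _ = J.card * P j := by rw [sum_const, smul_eq_mul]
      _ ≤ m * P j := Nat.mul_le_mul_right _ (card_le_univ _)
      _ = P j * m := Nat.mul_comm _ _
  -- the sunflowers
  have hf : ∀ (j : ℕ) (p : V × Finset V), ∃ f : Fin (g (P j)) → Finset V,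
      p.2 ∈ 𝒯 p.1 → p.2.card = j → (∀ l, f l ∈ E p.1 ∧ p.2 ⊆ f l) ∧
        ∀ l l', l ≠ l' → f l ∩ f l' = p.2 := by
    intro j p
    by_cases h : p.2 ∈ 𝒯 p.1 ∧ p.2.card = j
    · obtain ⟨h1, rfl⟩ := h
      obtain ⟨_, _, f, h2, h3⟩ := h𝒯2 p.1 p.2 h1
      exact ⟨f, fun _ _ => ⟨h2, h3⟩⟩
    · exact ⟨fun _ => ∅, fun h1 h2 => absurd ⟨h1, h2⟩ h⟩
  choose f hf using hf
  -- the hitting sets
  have hTj : ∀ j, ∃ T ⊆ I, q * r * T.card ≤ m ∧
      q * r * ((K j).filter (fun p => (univ.filter (fun l => (f j p l ∩ I) \ p.2 ⊆ T)).card <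
        b)).card ≤ m := by
    intro j
    refine hg (P j) V (V × Finset V) I (K j) (fun p l => (f j p l ∩ I) \ p.2) (hKc j) ?_ ?_
    · intro p hp l
      obtain ⟨_, h1, h2⟩ := hK j p hp
      have h3 := ((hf j p h1 h2).1 l).1
      refine ⟨sdiff_subset.trans inter_subset_right, ?_⟩
      rw [← (mem_filter.1 h3).2.2.2]
      exact card_le_card sdiff_subset
    · intro p hp l l' hll
      obtain ⟨_, h1, h2⟩ := hK j p hp
      have h3 := (hf j p h1 h2).2 l l' hll
      rw [disjoint_left]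
      intro v hv hv'
      rw [mem_sdiff, mem_inter] at hv hv'
      apply hv.2
      rw [← h3]
      exact mem_inter.2 ⟨hv.1.1, hv'.1.1⟩
  choose Tj hTjI hTjc hTjf using hTj
  let T : Finset V := (range r).biUnion Tj
  let Y : Finset V := J.filter (fun y => ∃ κ ∈ 𝒯 y,
    (univ.filter (fun l => (f κ.card (y, κ) l ∩ I) \ κ ⊆ Tj κ.card)).card < b)
  have hTI : T ⊆ I := by
    intro v hv
    obtain ⟨j, _, hj⟩ := mem_biUnion.1 hv
    exact hTjI j hj
  have hTc : q * T.card ≤ m := by
    have h1 : r * (q * T.card) ≤ r * m := by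
      calc r * (q * T.card) ≤ r * (q * ∑ j ∈ range r, (Tj j).card) := by
            gcongr; exact card_biUnion_le
        _ = ∑ j ∈ range r, q * r * (Tj j).card := by
            rw [mul_sum, mul_sum]
            exact sum_congr rfl fun j _ => by ring
        _ ≤ ∑ j ∈ range r, m := sum_le_sum fun j _ => hTjc j
        _ = r * m := by rw [sum_const, card_range, smul_eq_mul]
    exact Nat.le_of_mul_le_mul_left h1 hr0
  have hYc : q * Y.card ≤ m := by
    have h0 : Y ⊆ (range r).biUnion (fun j => ((K j).filter (fun p =>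
        (univ.filter (fun l => (f j p l ∩ I) \ p.2 ⊆ Tj j)).card < b)).image Prod.fst) := by
      intro y hy
      obtain ⟨hyJ, κ, hκ, h1⟩ := mem_filter.1 hy
      refine mem_biUnion.2 ⟨κ.card, mem_range.2 (h𝒯2 y κ hκ).2.1, ?_⟩
      refine mem_image.2 ⟨(y, κ), mem_filter.2 ⟨?_, h1⟩, rfl⟩
      exact mem_biUnion.2 ⟨y, hyJ, mem_image.2 ⟨κ, mem_filter.2 ⟨hκ, rfl⟩, rfl⟩⟩
    have h1 : r * (q * Y.card) ≤ r * m := by
      calc r * (q * Y.card) ≤ r * (q * ∑ j ∈ range r, ((K j).filter (fun p =>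
          (univ.filter (fun l => (f j p l ∩ I) \ p.2 ⊆ Tj j)).card < b)).card) := by
            gcongr
            refine (card_le_card h0).trans (card_biUnion_le.trans ?_)
            exact sum_le_sum fun j _ => card_image_le
        _ = ∑ j ∈ range r, q * r * ((K j).filter (fun p =>
          (univ.filter (fun l => (f j p l ∩ I) \ p.2 ⊆ Tj j)).card < b)).card := by
            rw [mul_sum, mul_sum]
            exact sum_congr rfl fun j _ => by ring
        _ ≤ ∑ j ∈ range r, m := sum_le_sum fun j _ => hTjf j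
        _ = r * m := by rw [sum_const, card_range, smul_eq_mul]
    exact Nat.le_of_mul_le_mul_left h1 hr0
  -- kernels are valid
  have hval : ∀ y ∈ J, y ∉ Y → ∀ κ ∈ 𝒯 y, Vd r t b T H κ := by
    intro y hyJ hyY κ hκ
    have hyI : y ∉ I := (mem_filter.1 hyJ).2
    obtain ⟨h1, h2, _⟩ := h𝒯2 y κ hκ
    have hy1 : y ∈ κ := h1 (mem_singleton_self y)
    obtain ⟨h3, h4⟩ := hf κ.card (y, κ) hκ rfl
    refine rich_valid (by omega) (fun e he => (hH e he).1) hyI hy1 h2 (f κ.card (y, κ))
      (fun l => ?_) h4 ?_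
    · obtain ⟨_, h5, _, h6⟩ := mem_filter.1 (h3 l).1
      exact ⟨h5, h6, (h3 l).2⟩
    · have h5 : ¬ (univ.filter (fun l => (f κ.card (y, κ) l ∩ I) \ κ ⊆ Tj κ.card)).card < b := by
        intro h
        exact hyY (mem_filter.2 ⟨hyJ, κ, hκ, h⟩)
      push Not at h5
      refine h5.trans (card_le_card fun l hl => ?_)
      refine mem_filter.2 ⟨mem_univ _, (mem_filter.1 hl).2.trans ?_⟩
      exact subset_biUnion_of_mem Tj (mem_range.2 h2)
  -- few edges with exactly t elements in I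
  let R0 : Finset (Finset V) := univ.filter (fun e : Finset V =>
    Nx r t b T Y ∅ H e ∧ (e ∩ I).card = t)
  have hR0 : R0.card ≤ P r * m := by
    have h0 : R0 ⊆ J.biUnion (fun y => (E y).filter (fun e => ∀ κ ∈ 𝒯 y, ¬ κ ⊆ e)) := by
      intro e he
      obtain ⟨_, ⟨h1, h2, h3⟩, h4⟩ := mem_filter.1 he
      obtain ⟨y, hy, hyI⟩ := not_subset.1 (hH e h1).2
      have hyJ : y ∈ J := mem_filter.2 ⟨mem_univ _, hyI⟩
      refine mem_biUnion.2 ⟨y, hyJ, mem_filter.2 ⟨mem_filter.2 ⟨mem_univ _, h1, hy, h4⟩, ?_⟩⟩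
      intro κ hκ hκe
      exact h2 κ hκe (hval y hyJ (h3 y hy).1 κ hκ)
    calc R0.card ≤ ∑ y ∈ J, ((E y).filter (fun e => ∀ κ ∈ 𝒯 y, ¬ κ ⊆ e)).card :=
          (card_le_card h0).trans card_biUnion_le
      _ ≤ ∑ y ∈ J, P r := sum_le_sum fun y _ => by
          have h := (h𝒯3 y).trans (hprod r)
          convert h
      _ = J.card * P r := by rw [sum_const, smul_eq_mul]
      _ ≤ m * P r := Nat.mul_le_mul_right _ (card_le_univ _)
      _ = P r * m := Nat.mul_comm _ _
  let c : V → ℕ := fun x => (R0.filter (fun e => x ∈ e)).card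
  have hsum : ∑ x ∈ I, c x ≤ (t * P r) * m := by
    have h1 : ∑ x ∈ I, c x = ∑ e ∈ R0, (I.filter (fun x => x ∈ e)).card := by
      simp only [c, card_filter]
      exact sum_comm
    rw [h1]
    calc ∑ e ∈ R0, (I.filter (fun x => x ∈ e)).card ≤ ∑ e ∈ R0, t := by
          refine sum_le_sum fun e he => ?_
          rw [← (mem_filter.1 he).2.2]
          apply card_le_card
          intro x hx
          obtain ⟨h2, h3⟩ := mem_filter.1 hx
          exact mem_inter.2 ⟨h3, h2⟩
      _ = R0.card * t := by rw [sum_const, smul_eq_mul]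
      _ ≤ (P r * m) * t := Nat.mul_le_mul_right _ hR0
      _ = (t * P r) * m := by ring
  let X : Finset V := I.filter (fun x => q * (t * P r) < c x)
  refine ⟨T, Y, X, hTI, ?_, filter_subset _ _, hTc, hYc,
    few_large I c q (t * P r) m (Nat.mul_pos ht (hP0 r)) hsum, ?_⟩
  · rw [disjoint_left]
    intro y hy hyI
    exact (mem_filter.1 (mem_filter.1 hy).1).2 hyI
  · intro x hx S hS
    have h1 : (S.filter (fun e => t + 1 ≤ (e ∩ I).card)).card ≤ D := by
      apply hD x hx
      intro e he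
      obtain ⟨h2, h3⟩ := mem_filter.1 he
      exact ⟨(hS e h2).1.1, (hS e h2).2.1, h3⟩
    have h2 : (S.filter (fun e => ¬ t + 1 ≤ (e ∩ I).card)).card ≤ q * (t * P r) := by
      rcases (S.filter (fun e => ¬ t + 1 ≤ (e ∩ I).card)).eq_empty_or_nonempty with h0 | ⟨e₀, he₀⟩
      · rw [h0]; simp
      · have hxX : x ∉ X := by
          obtain ⟨h3, _⟩ := mem_filter.1 he₀
          exact ((hS e₀ h3).1.2.2 x (hS e₀ h3).2.1).2
        have h3 : c x ≤ q * (t * P r) := by
          by_contra h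
          push Not at h
          exact hxX (mem_filter.2 ⟨hx, h⟩)
        refine (card_le_card fun e he => ?_).trans h3
        obtain ⟨h4, h5⟩ := mem_filter.1 he
        obtain ⟨⟨g1, g2, g3⟩, g4, g5⟩ := hS e h4
        refine mem_filter.2 ⟨mem_filter.2 ⟨mem_univ _, ⟨g1, g2, fun v hv => ⟨(g3 v hv).1,
          notMem_empty v⟩⟩, by omega⟩, g4⟩
    have h3 := card_filter_add_card_filter_not (s := S) (fun e => t + 1 ≤ (e ∩ I).card)
    omega

end Pool.Agent.J4H63.KS
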