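import Pool.Agent.J4H63.KS.Hk
import Pool.Agent.J4H63.KS.Hkb
import Pool.Agent.J4H63.KS.Step
import Pool.Agent.J4H36.KS.Hit
import Pool.Agent.J4H21.KS.Tree
import Pool.Agent.J4H21.KS.Val
import Pool.Agent.J4H94.KS.Snd
import Pool.Agent.J4H79.KS.Spla
import Pool.Agent.J4H16.KS.Num
import Pool.Agent.J4H74.KS.Rk
import Pool.Agent.J4H74.KS.Cl
import Pool.Agent.J4H18.IS.Or
import Pool.Agent.J4H95.SP.Lem

set_option autoImplicit false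

/-! Assembly of project KS. -/

namespace Pool.Agent.J4H63.KS

open Finset Pool.Agent.J4H64.SS Pool.Agent.J4H95.SP

/-- the assignment `a` satisfies the clauses of `x` -/
def ByK {k n : ℕ} (a : Fin n → Bool) (x : ClK k n → Bool) : Prop :=
  ∀ c : ClK k n, x c = true → ∃ l ∈ c.1, a l.1 = l.2

theorem spl_of (h1 : S_STEP → S_VAL → S_LVL) (h2 : S_LVL → S_CPLK) (h3 : S_ACK) : S_SPL :=
  J4H79.KS.t_SPLA J4H94.KS.t_SNDK J4H94.KS.t_CRDK J4H94.KS.t_DEGK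
    (h2 (h1 (t_STEP J4H36.KS.t_HIT J4H21.KS.t_TREE) J4H21.KS.t_VAL)) h3 J4H16.KS.t_NUMK

theorem iff_of (h : S_SPL) (k : ℕ) (hk : 3 ≤ k) : HypH ↔ HypK k :=
  ⟨t_HKB J4H74.KS.t_CLK k hk,
    t_HKA h J4H74.KS.t_RK J4H74.KS.t_SBT J4H74.KS.t_CLK J4H18.IS.t_OR k⟩

theorem sparsify_of (h : S_SPL) (k : ℕ) (ε : ℝ) (hε : 0 < ε) : ∃ B K d : ℕ, ∀ n : ℕ, 1 ≤ n →
    ∃ (s : ℕ) (ψ : Fin s → (ClK k n → Bool) → ClK k n → Bool),
      (s : ℝ) ≤ (2 : ℝ) ^ (ε * (n : ℝ)) ∧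
      (∀ t q, ∃ C : Circ (ClK k n), C.WF ∧ C.Depth d ∧ C.m ≤ (2 * n) ^ K ∧
        ∀ x, C.Acc x ↔ ψ t x q = true) ∧
      (∀ t x (l : Fin n × Bool),
        (univ.filter (fun c : ClK k n => ψ t x c = true ∧ l ∈ c.1)).card ≤ B) ∧
      (∀ t x a, ByK a (ψ t x) → ByK a x) ∧ ∀ x a, ByK a x → ∃ t, ByK a (ψ t x) := by
  classical
  obtain ⟨B, K, d₀, hP⟩ := h k ε hε
  refine ⟨B, (K + 1) * (2 * d₀), d₀ + 1, fun n hn => ?_⟩
  obtain ⟨β, hβf, ψ, hβc, _, hAC, hS, hE⟩ := hP n hn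
  let e := Fintype.equivFin β
  refine ⟨Fintype.card β, fun t => ψ (e.symm t), hβc, ?_, fun t x => hS (e.symm t) x, ?_, ?_⟩
  · intro t q
    have hw2 : 2 ≤ (2 * n) ^ (K + 1) := by
      calc 2 ≤ 2 * n := by omega
        _ = (2 * n) ^ 1 := (pow_one _).symm
        _ ≤ (2 * n) ^ (K + 1) := Nat.pow_le_pow_right (by omega) (by omega)
    have hwK : (2 * n) ^ K ≤ (2 * n) ^ (K + 1) := Nat.pow_le_pow_right (by omega) (by omega)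
    obtain ⟨C, g1, g2, g3, g4⟩ := J4H21.SP.tree q ((2 * n) ^ (K + 1)) hw2 d₀ _
      (J4H17.SP.AC.mono hwK (hAC (e.symm t) q))
    refine ⟨C, g1, g2, ?_, g4⟩
    rwa [← pow_mul] at g3
  · intro t x a ha
    exact (hE x a).2 ⟨_, ha⟩
  · intro x a ha
    obtain ⟨t, ht⟩ := (hE x a).1 ha
    refine ⟨e t, ?_⟩
    simp only [Equiv.symm_apply_apply]
    exact ht

end Pool.Agent.J4H63.KS
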