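import Pool.Agent.J4H63.KS.Stm
import Pool.Agent.J4H63.IS.A5

set_option autoImplicit false

/-! (HKA), (HKB): assemblies. -/

namespace Pool.Agent.J4H63.KS

open Finset Pool.Agent.J4H64.SS Pool.Agent.J4H95.SP

theorem t_HKA : S_HKA := by
  classical
  intro hSPL hRK hSBT hCLK hOR k
  rintro ⟨δ, hδ, hS⟩
  obtain ⟨B, K₁, d₁, hψ⟩ := hSPL k (δ / 4) (by positivity)
  obtain ⟨c, K₂, d₂, hG⟩ := hRK k B
  have hc0' : 1 ≤ c := by
    obtain ⟨N, h1, h2, _⟩ := hG 1 le_rfl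
    by_contra h
    have : c = 0 := by omega
    subst this
    omega
  have hc0 : (0 : ℝ) < c := by exact_mod_cast hc0'
  set K := K₁ + K₂ + 1 with hK
  set e := 2 * (d₂ + d₁) with he
  obtain ⟨N₁, hN₁⟩ := J4H17.SP.poly_le (δ / 8) (by positivity) (K * e + k + 3)
  refine ⟨δ / 4 / c, by positivity, fun d N₀ => ?_⟩
  obtain ⟨n, hn, hn1, hno⟩ := hS (d + (d₂ + d₁) + 2) (max N₀ (max N₁ ⌈8 / δ⌉₊))
  have hnN₀ : N₀ ≤ n := (le_max_left _ _).trans hn
  have hnN₁ : N₁ ≤ n := (le_max_left _ _).trans ((le_max_right _ _).trans hn)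
  have hnδ : 8 / δ ≤ n := by
    have h1 : ⌈8 / δ⌉₊ ≤ n := (le_max_right _ _).trans ((le_max_right _ _).trans hn)
    exact (Nat.le_ceil _).trans (by exact_mod_cast h1)
  obtain ⟨β, hβf, ψ, hβc, hβn, hψAC, hψS, hψE⟩ := hψ n hn1
  obtain ⟨N, hnN, hNc, G, hGAC, hGE⟩ := hG n hn1
  refine ⟨N, hnN₀.trans hnN, hn1.trans hnN, ?_⟩
  rintro ⟨D, hwf, hd, hsize, hacc⟩
  refine hno ?_
  set w : ℕ := (2 * n) ^ K with hw
  have hpow : ∀ a, a ≤ K → (2 * n) ^ a ≤ w := fun a ha => Nat.pow_le_pow_right (by omega) ha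
  have hw2 : 2 ≤ w := by
    calc 2 ≤ 2 * n := by omega
      _ = (2 * n) ^ 1 := (pow_one _).symm
      _ ≤ w := hpow 1 (by omega)
  have hne : Nonempty (ClK k n) := ⟨⟨∅, by simp⟩⟩
  obtain ⟨C, g1, g2, g3, g4⟩ := hOR (ClK k n) (Cl N) β w d (d₂ + d₁) D.m
    (fun _ => D) hw2 (fun _ => hwf) (fun _ => hd) (fun _ => le_rfl)
    (fun t x => G (ψ t x)) (fun t q => by
      refine hSBT (ClK k n) (ClK k n) w d₂ d₁ (fun y => G y q = true) (ψ t) ?_ ?_
      · exact J4H17.SP.AC.mono (hpow K₂ (by omega)) (hGAC q)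
      · exact fun j => J4H17.SP.AC.mono (hpow K₁ (by omega)) (hψAC t j))
  refine ⟨C, g1, g2, ?_, fun x => ?_⟩
  · -- sizes
    set Y : ℝ := (2 : ℝ) ^ (δ / 8 * (n : ℝ)) with hY
    have hY2 : 2 ≤ Y := by
      have h1 : (1 : ℝ) ≤ δ / 8 * n := by
        rw [div_le_iff₀ hδ] at hnδ
        linarith
      calc (2 : ℝ) = (2 : ℝ) ^ (1 : ℝ) := (Real.rpow_one 2).symm
        _ ≤ Y := Real.rpow_le_rpow_of_exponent_le (by norm_num) h1
    have hY4 : (2 : ℝ) ^ (δ / 4 * (n : ℝ)) = Y * Y := by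
      rw [hY, ← Real.rpow_add (by norm_num)]
      congr 1
      ring
    have hβ : ((Fintype.card β : ℕ) : ℝ) ≤ Y * Y := by
      rw [← hY4]
      exact hβc
    have hsize' : (Fintype.card (Cl N) : ℝ) + (D.m : ℝ) ≤ Y * Y := by
      refine hsize.trans ?_
      rw [← hY4]
      apply Real.rpow_le_rpow_of_exponent_le (by norm_num)
      have h1 : (N : ℝ) ≤ c * n := by exact_mod_cast hNc
      calc δ / 4 / c * (N : ℝ) ≤ δ / 4 / c * (c * n) := by gcongr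
        _ = δ / 4 * n := by field_simp
    have hW : ((((2 * n) ^ (K * e + k + 3)) : ℕ) : ℝ) ≤ Y := by
      exact_mod_cast hN₁ n hnN₁
    set W : ℝ := (((2 * n) ^ (K * e) : ℕ) : ℝ) with hWd
    have hwW : ((w ^ (2 * (d₂ + d₁)) : ℕ) : ℝ) = W := by
      rw [hWd, hw, ← pow_mul, ← he]
    have hW1 : (1 : ℝ) ≤ W := by
      have : 1 ≤ (2 * n) ^ (K * e) := Nat.one_le_pow _ _ (by omega)
      rw [hWd]
      exact_mod_cast this
    set P : ℝ := (((2 * n) ^ (k + 1) : ℕ) : ℝ) with hPd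
    have hP1 : (1 : ℝ) ≤ P := by
      have : 1 ≤ (2 * n) ^ (k + 1) := Nat.one_le_pow _ _ (by omega)
      rw [hPd]
      exact_mod_cast this
    have hPW : 2 * (P * W) ≤ Y := by
      have h1 : 2 * ((2 * n) ^ (k + 1) * (2 * n) ^ (K * e)) ≤ (2 * n) ^ (K * e + k + 3) := by
        calc 2 * ((2 * n) ^ (k + 1) * (2 * n) ^ (K * e))
            ≤ ((2 * n) * (2 * n)) * ((2 * n) ^ (k + 1) * (2 * n) ^ (K * e)) :=
              Nat.mul_le_mul_right _ (by nlinarith)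
          _ = (2 * n) ^ (K * e + k + 3) := by ring
      have h2 : ((2 * ((2 * n) ^ (k + 1) * (2 * n) ^ (K * e)) : ℕ) : ℝ) ≤
          (((2 * n) ^ (K * e + k + 3) : ℕ) : ℝ) := by exact_mod_cast h1
      have h3 : ((2 * ((2 * n) ^ (k + 1) * (2 * n) ^ (K * e)) : ℕ) : ℝ) = 2 * (P * W) := by
        rw [hWd, hPd]; push_cast; ring
      rw [← h3]
      exact h2.trans hW
    have hPc : (Fintype.card (ClK k n) : ℝ) ≤ P := by
      rw [hPd]
      exact_mod_cast hCLK k n hn1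
    have g3' : (C.m : ℝ) ≤ 1 + (Fintype.card β : ℝ) *
        ((D.m : ℝ) + (Fintype.card (Cl N) : ℝ) * W) := by
      rw [← hwW]
      exact_mod_cast g3
    set L : ℝ := (Fintype.card (Cl N) : ℝ) with hL
    set M : ℝ := (D.m : ℝ) with hM
    have hM0 : 0 ≤ M := Nat.cast_nonneg _
    have hL0 : 0 ≤ L := Nat.cast_nonneg _
    have e1 : (2 : ℝ) ^ (δ * (n : ℝ)) = ((Y * Y) * (Y * Y)) * ((Y * Y) * (Y * Y)) := by
      rw [hY, ← Real.rpow_add (by norm_num), ← Real.rpow_add (by norm_num),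
        ← Real.rpow_add (by norm_num)]
      congr 1
      ring
    rw [e1]
    have f2 : W ≤ Y := by nlinarith
    have f1 : P ≤ Y := by nlinarith
    have hY0 : (0 : ℝ) < Y := by linarith
    have f3 : M + L * W ≤ (Y * Y) * Y := by
      have : M + L * W ≤ (L + M) * W := by nlinarith
      calc M + L * W ≤ (L + M) * W := this
        _ ≤ (Y * Y) * Y := mul_le_mul hsize' f2 (by linarith) (by positivity)
    have f4 : (Fintype.card β : ℝ) * (M + L * W) ≤ (Y * Y) * ((Y * Y) * Y) :=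
      mul_le_mul hβ f3 (by nlinarith) (by positivity)
    have f5 : 4 ≤ Y * Y := by nlinarith
    set Z : ℝ := Y * Y with hZ
    have f6 : Y ≤ Z := by nlinarith
    have f7 : P + (1 + Z * (Z * Y)) ≤ (Z * Z) * (Z * Z) := by
      have k1 : Z * Y ≤ Z * Z := by nlinarith
      have k2 : Z * (Z * Y) ≤ Z * (Z * Z) := by nlinarith
      have k3 : 16 ≤ Z * Z := by nlinarith
      have k4 : Z * (Z * Z) * 4 ≤ (Z * Z) * (Z * Z) := by nlinarith [mul_pos (show (0:ℝ) < Z by linarith) (show (0:ℝ) < Z * Z by nlinarith)]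
      have k5 : P ≤ Z := f1.trans f6
      have k6 : Z ≤ Z * (Z * Z) := by nlinarith
      nlinarith
    linarith
  · rw [g4]
    constructor
    · rintro ⟨t, ht⟩
      obtain ⟨a, ha⟩ := (hGE _ (hψS t x)).1 ((hacc _).1 ht)
      exact ⟨a, (hψE x a).2 ⟨t, ha⟩⟩
    · rintro ⟨a, ha⟩
      obtain ⟨t, ht⟩ := (hψE x a).1 ha
      exact ⟨t, (hacc _).2 ((hGE _ (hψS t x)).2 ⟨a, ht⟩)⟩

end Pool.Agent.J4H63.KS
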