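import Pool.Agent.J4H63.KS.Tr
import Pool.Agent.J4H63.KS.All

set_option autoImplicit false

/-! Hypothesis H and monadic SNP. -/

namespace Pool.Agent.J4H63.KS

open Finset Pool.Agent.J4H64.SS Pool.Agent.J4H95.SP

/-- A monadic SNP sentence `∃ S_1 … S_m ∀ y_1 … y_r φ` over the relation symbols `0, …, ρ` of
arities `ar`. The quantifier-free kernel `φ` is a function of the truth values of the equalities
`y_i = y_j`, of the atoms `R_i (y_g(1), …)` and of the atoms `S_j (y_i)`. -/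
structure Snp where
  ρ : ℕ
  ar : Fin (ρ + 1) → ℕ
  m : ℕ
  r : ℕ
  φ : (Fin r → Fin r → Bool) → ((i : Fin (ρ + 1)) → (Fin (ar i) → Fin r) → Bool) →
    (Fin m → Fin r → Bool) → Bool

/-- the bits of a structure on `Fin n` -/
abbrev Inp (P : Snp) (n : ℕ) : Type := (i : Fin (P.ρ + 1)) × (Fin (P.ar i) → Fin n)

/-- the sentence holds in the structure -/
def Holds (P : Snp) {n : ℕ} (R : Inp P n → Bool) : Prop :=
  ∃ S : Fin P.m → Fin n → Bool, ∀ y : Fin P.r → Fin n,
    P.φ (fun i j => decide (y i = y j)) (fun i g => R ⟨i, y ∘ g⟩) (fun j i => S j (y i)) = true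

/-- Hypothesis H for the models of the sentence -/
def HypP (P : Snp) : Prop :=
  ∃ δ : ℝ, 0 < δ ∧ ∀ d N₀ : ℕ, ∃ n : ℕ, N₀ ≤ n ∧ 1 ≤ n ∧
    ¬ ∃ C : Circ (Inp P n), C.WF ∧ C.Depth d ∧
      ((Fintype.card (Inp P n) : ℝ) + (C.m : ℝ) ≤ (2 : ℝ) ^ (δ * (n : ℝ))) ∧
      ∀ R, C.Acc R ↔ Holds P R

/-- Hypothesis H for some monadic SNP sentence -/
def HypSnp : Prop := ∃ P : Snp, HypP P

section

variable (P : Snp)

/-- the clause which excludes the values `s` at `y` -/
def lit {n N : ℕ} (e : Fin n × Fin (P.m + 1) ≃ Fin N) (y : Fin P.r → Fin n)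
    (s : Fin P.m → Fin P.r → Bool) (p : Fin P.m × Fin P.r) : Fin N × Bool :=
  (e (y p.2, p.1.castSucc), !s p.1 p.2)

open Classical in
/-- the formula of a structure -/
noncomputable def Fm {n N : ℕ} (e : Fin n × Fin (P.m + 1) ≃ Fin N) (R : Inp P n → Bool)
    (q : ClK (P.m * P.r) N) : Bool :=
  decide (∃ ys : (Fin P.r → Fin n) × (Fin P.m → Fin P.r → Bool),
    q.1 = univ.image (lit P e ys.1 ys.2) ∧
    P.φ (fun i j => decide (ys.1 i = ys.1 j)) (fun i g => R ⟨i, ys.1 ∘ g⟩) ys.2 = false)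

theorem sat_Fm {n N : ℕ} (e : Fin n × Fin (P.m + 1) ≃ Fin N) (R : Inp P n → Bool) :
    SatK (Fm P e R) ↔ Holds P R := by
  classical
  constructor
  · rintro ⟨a, ha⟩
    refine ⟨fun j v => a (e (v, j.castSucc)), fun y => ?_⟩
    by_contra hφ
    rw [Bool.not_eq_true] at hφ
    set s : Fin P.m → Fin P.r → Bool := fun j i => a (e (y i, j.castSucc)) with hs
    have hc : (univ.image (lit P e y s)).card ≤ P.m * P.r := by
      refine card_image_le.trans ?_
      simp
    obtain ⟨l, hl, hl'⟩ := ha ⟨univ.image (lit P e y s), hc⟩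
      (decide_eq_true (⟨(y, s), rfl, hφ⟩ : ∃ ys : (Fin P.r → Fin n) × (Fin P.m → Fin P.r → Bool),
        univ.image (lit P e y s) = univ.image (lit P e ys.1 ys.2) ∧
        P.φ (fun i j => decide (ys.1 i = ys.1 j)) (fun i g => R ⟨i, ys.1 ∘ g⟩) ys.2 = false))
    rw [mem_image] at hl
    obtain ⟨p, -, rfl⟩ := hl
    simp only [lit, hs] at hl'
    revert hl'
    cases a (e (y p.2, p.1.castSucc)) <;> simp
  · rintro ⟨S, hS⟩
    refine ⟨fun u => if h : (e.symm u).2.val < P.m then S ⟨_, h⟩ (e.symm u).1 else false,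
      fun q hq => ?_⟩
    obtain ⟨⟨y, s⟩, hq1, hq2⟩ := of_decide_eq_true hq
    have hne : s ≠ fun j i => S j (y i) := by
      intro h
      have := hS y
      rw [← h, hq2] at this
      exact absurd this (by decide)
    obtain ⟨j, hj⟩ := Function.ne_iff.1 hne
    obtain ⟨i, hi⟩ := Function.ne_iff.1 hj
    refine ⟨lit P e y s (j, i), ?_, ?_⟩
    · rw [hq1]
      exact mem_image_of_mem _ (mem_univ _)
    · simp only [lit, Equiv.symm_apply_apply, Fin.val_castSucc, Fin.is_lt, dite_true, Fin.eta]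
      revert hi
      cases s j i <;> cases S j (y i) <;> simp

/-- the atoms -/
abbrev At : Type := (i : Fin (P.ρ + 1)) × (Fin (P.ar i) → Fin P.r)

theorem ac_Fm {n N w : ℕ} (e : Fin n × Fin (P.m + 1) ≃ Fin N) (q : ClK (P.m * P.r) N)
    (h1 : Fintype.card (At P) ≤ w) (h2 : Fintype.card (At P → Bool) ≤ w)
    (h3 : Fintype.card ((Fin P.r → Fin n) × (Fin P.m → Fin P.r → Bool)) ≤ w) :
    AC w 6 (fun R : Inp P n → Bool => Fm P e R q = true) := by
  classical
  have key : AC w 6 (fun R : Inp P n → Bool =>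
      ∃ ys : (Fin P.r → Fin n) × (Fin P.m → Fin P.r → Bool),
        q.1 = univ.image (lit P e ys.1 ys.2) ∧ ∃ p : At P → Bool,
          P.φ (fun i j => decide (ys.1 i = ys.1 j)) (fun i g => p ⟨i, g⟩) ys.2 = false ∧
            ∀ a : At P, (R ⟨a.1, ys.1 ∘ a.2⟩ = true ↔ p a = true)) := by
    refine J4H87.SP.ac_ex h3 fun ys => J4H87.SP.ac_cand (d := 3) ?_
    refine J4H87.SP.ac_ex h2 fun p => J4H87.SP.ac_cand (d := 2) ?_
    refine J4H87.SP.ac_all (d := 1) h1 fun a => ?_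
    cases hp : p a
    · have h := AC.neg (AC.inp (w := w) 0 (⟨a.1, ys.1 ∘ a.2⟩ : Inp P n))
      have e1 : (fun R : Inp P n → Bool => (R ⟨a.1, ys.1 ∘ a.2⟩ = true ↔ false = true)) =
          fun R => ¬ (R ⟨a.1, ys.1 ∘ a.2⟩ = true) := by
        funext R
        simp
      rw [e1]
      exact h
    · have e1 : (fun R : Inp P n → Bool => (R ⟨a.1, ys.1 ∘ a.2⟩ = true ↔ true = true)) =
          fun R => R ⟨a.1, ys.1 ∘ a.2⟩ = true := by
        funext R
        simp
      rw [e1]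
      exact AC.inp _ _
  have e2 : (fun R : Inp P n → Bool => Fm P e R q = true) = fun R =>
      ∃ ys : (Fin P.r → Fin n) × (Fin P.m → Fin P.r → Bool),
        q.1 = univ.image (lit P e ys.1 ys.2) ∧ ∃ p : At P → Bool,
          P.φ (fun i j => decide (ys.1 i = ys.1 j)) (fun i g => p ⟨i, g⟩) ys.2 = false ∧
            ∀ a : At P, (R ⟨a.1, ys.1 ∘ a.2⟩ = true ↔ p a = true) := by
    funext R
    simp only [Fm, decide_eq_true_eq]
    refine propext (exists_congr fun ys => and_congr_right fun _ => ?_)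
    constructor
    · intro h
      exact ⟨fun a => R ⟨a.1, ys.1 ∘ a.2⟩, h, fun a => Iff.rfl⟩
    · rintro ⟨p, hp, ha⟩
      have : (fun (i : Fin (P.ρ + 1)) (g : Fin (P.ar i) → Fin P.r) => R ⟨i, ys.1 ∘ g⟩) =
          fun i g => p ⟨i, g⟩ := by
        funext i g
        rw [Bool.eq_iff_iff]
        exact ha ⟨i, g⟩
      rw [this]
      exact hp
  rw [e2]
  exact key

theorem card_Inp (n : ℕ) (hn : 1 ≤ n) :
    Fintype.card (Inp P n) ≤ (2 * n) ^ (P.ρ + 1 + ∑ i, P.ar i) := by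
  rw [Fintype.card_sigma]
  calc ∑ i, Fintype.card (Fin (P.ar i) → Fin n)
      ≤ ∑ _i : Fin (P.ρ + 1), (2 * n) ^ (∑ i, P.ar i) := by
        refine sum_le_sum fun i _ => ?_
        rw [Fintype.card_fun, Fintype.card_fin, Fintype.card_fin]
        calc n ^ P.ar i ≤ (2 * n) ^ P.ar i := Nat.pow_le_pow_left (by omega) _
          _ ≤ (2 * n) ^ (∑ i, P.ar i) :=
            Nat.pow_le_pow_right (by omega) (single_le_sum (f := P.ar) (fun _ _ => Nat.zero_le _)
              (mem_univ i))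
    _ = (P.ρ + 1) * (2 * n) ^ (∑ i, P.ar i) := by simp
    _ ≤ 2 ^ (P.ρ + 1) * (2 * n) ^ (∑ i, P.ar i) :=
        Nat.mul_le_mul_right _ Nat.lt_two_pow_self.le
    _ ≤ (2 * n) ^ (P.ρ + 1) * (2 * n) ^ (∑ i, P.ar i) :=
        Nat.mul_le_mul_right _ (Nat.pow_le_pow_left (by omega) _)
    _ = (2 * n) ^ (P.ρ + 1 + ∑ i, P.ar i) := by rw [← pow_add]

theorem HypP_to_K (h : HypP P) : HypK (P.m * P.r) := by
  classical
  set A := Fintype.card (At P) with hA
  set K := (P.ρ + 1 + ∑ i, P.ar i) + (A + P.r + P.r * P.m) with hK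
  have e : ∀ n, Fin n × Fin (P.m + 1) ≃ Fin (n * (P.m + 1)) := fun n => finProdFinEquiv
  refine transfer (Inp P) (fun n => ClK (P.m * P.r) n) (fun n => Holds P) (fun n => SatK)
    (fun n => n * (P.m + 1)) (P.m + 1) K 6 (by omega) (fun n => Nat.le_mul_of_pos_right _ (by omega))
    (fun n => by rw [mul_comm]) ?_ ?_ (fun n => Fm P (e n)) ?_ (fun n _ R => sat_Fm P (e n) R) h
  · intro n hn
    exact ⟨⟨0, fun _ => ⟨0, hn⟩⟩⟩
  · intro n hn
    exact (card_Inp P n hn).trans (Nat.pow_le_pow_right (by omega) (by omega))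
  · intro n hn q
    have h2 : Fintype.card (At P → Bool) ≤ (2 * n) ^ K := by
      rw [Fintype.card_fun, Fintype.card_bool, ← hA]
      exact (Nat.pow_le_pow_left (by omega) _).trans (Nat.pow_le_pow_right (by omega) (by omega))
    have h1 : Fintype.card (At P) ≤ (2 * n) ^ K := by
      refine le_trans ?_ h2
      rw [Fintype.card_fun, Fintype.card_bool]
      exact Nat.lt_two_pow_self.le
    refine ac_Fm P (e n) q h1 h2 ?_
    rw [Fintype.card_prod, Fintype.card_fun, Fintype.card_fun, Fintype.card_fun,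
      Fintype.card_fin, Fintype.card_fin, Fintype.card_fin, Fintype.card_bool, ← pow_mul]
    calc n ^ P.r * 2 ^ (P.r * P.m) ≤ (2 * n) ^ P.r * (2 * n) ^ (P.r * P.m) :=
          Nat.mul_le_mul (Nat.pow_le_pow_left (by omega) _) (Nat.pow_le_pow_left (by omega) _)
      _ = (2 * n) ^ (P.r + P.r * P.m) := by rw [← pow_add]
      _ ≤ (2 * n) ^ K := Nat.pow_le_pow_right (by omega) (by omega)

theorem HypP_to_H (h : HypP P) : HypH :=
  t_HKA t_SPL J4H74.KS.t_RK J4H74.KS.t_SBT J4H74.KS.t_CLK J4H18.IS.t_OR _ (HypP_to_K P h)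

end

/-! ### 3-SAT -/

/-- numbering of the sign patterns -/
noncomputable def e8 : (Fin 3 → Bool) ≃ Fin (7 + 1) := Fintype.equivFinOfCardEq (by simp)

/-- 3-SAT as a monadic SNP sentence: one ternary relation for every sign pattern -/
noncomputable def P3 : Snp where
  ρ := 7
  ar := fun _ => 3
  m := 1
  r := 3
  φ := fun _ R s => decide (∀ σ : Fin 3 → Bool, R (e8 σ) id = true → ∃ j, s 0 j = σ j)

/-- the clause -/
def cl3 {n : ℕ} (y : Fin 3 → Fin n) (σ : Fin 3 → Bool) : Cl n :=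
  ⟨univ.image (fun j => (y j, σ j)), card_image_le.trans (by simp)⟩

/-- a 3-CNF as a structure -/
noncomputable def st3 {n : ℕ} (x : Cl n → Bool) : Inp P3 n → Bool :=
  fun p => x (cl3 p.2 (e8.symm p.1)) || x ⟨∅, by simp⟩

theorem exists_enum {α : Type} [DecidableEq α] (c : Finset α) (h0 : c.Nonempty)
    (h : c.card ≤ 3) : ∃ f : Fin 3 → α, univ.image f = c := by
  have h1 : Fintype.card c ≤ Fintype.card (Fin 3) := by simpa using h
  obtain ⟨e⟩ := Function.Embedding.nonempty_of_card_le h1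
  haveI : Nonempty c := h0.to_subtype
  have hs := Function.invFun_surjective e.injective
  refine ⟨fun i => (Function.invFun e i : c).1, ?_⟩
  ext a
  rw [mem_image]
  constructor
  · rintro ⟨i, -, rfl⟩
    exact (Function.invFun e i : c).2
  · intro ha
    obtain ⟨i, hi⟩ := hs ⟨a, ha⟩
    exact ⟨i, mem_univ _, by rw [hi]⟩

theorem holds_st3 {n : ℕ} (hn : 1 ≤ n) (x : Cl n → Bool) : Holds P3 (st3 x) ↔ Sat x := by
  classical
  constructor
  · rintro ⟨S₀, hS⟩
    obtain ⟨S, hS'⟩ : ∃ S : Fin 1 → Fin n → Bool, ∀ (y : Fin 3 → Fin n) (σ : Fin 3 → Bool),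
        st3 x ⟨e8 σ, y⟩ = true → ∃ j, S 0 (y j) = σ j :=
      ⟨S₀, fun y => of_decide_eq_true (hS y)⟩
    refine ⟨S 0, fun c hc => ?_⟩
    rcases c.1.eq_empty_or_nonempty with h0 | h0
    · obtain ⟨j, hj⟩ := hS' (fun _ => ⟨0, hn⟩) (fun _ => !S 0 ⟨0, hn⟩) (by
        have : (⟨∅, by simp⟩ : Cl n) = c := Subtype.ext h0.symm
        simp only [st3, this, hc, Bool.or_true])
      revert hj
      cases S 0 ⟨0, hn⟩ <;> simp
    · obtain ⟨f, hf⟩ := exists_enum c.1 h0 c.2
      obtain ⟨j, hj⟩ := hS' (fun j => (f j).1) (fun j => (f j).2) (by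
        have : cl3 (fun j => (f j).1) (fun j => (f j).2) = c := Subtype.ext hf
        simp only [st3, Equiv.symm_apply_apply, this, hc, Bool.true_or])
      refine ⟨f j, ?_, hj⟩
      rw [← hf]
      exact mem_image_of_mem _ (mem_univ _)
  · rintro ⟨a, ha⟩
    refine ⟨fun _ => a, fun y => ?_⟩
    refine decide_eq_true (p := ∀ σ : Fin 3 → Bool, st3 x ⟨e8 σ, y ∘ id⟩ = true →
      ∃ j, a (y j) = σ j) ?_
    intro σ hσ
    simp only [st3, Equiv.symm_apply_apply, Bool.or_eq_true] at hσ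
    rcases hσ with hσ | hσ
    · obtain ⟨l, hl, hl'⟩ := ha _ hσ
      simp only [cl3, mem_image] at hl
      obtain ⟨j, -, rfl⟩ := hl
      exact ⟨j, hl'⟩
    · obtain ⟨l, hl, _⟩ := ha _ hσ
      simp at hl

theorem H_to_P3 (h : HypH) : HypP P3 := by
  refine transfer Cl (Inp P3) (fun n => Sat) (fun n => Holds P3) id 1 4 1 le_rfl
    (fun n => le_rfl) (fun n => by simp) ?_ ?_ (fun n => st3) ?_ (fun n hn x => holds_st3 hn x) h
  · intro n hn
    exact ⟨⟨∅, by simp⟩⟩
  · intro n hn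
    exact J4H74.KS.t_CLK 3 n hn
  · intro n hn q
    have h2 : 2 ≤ (2 * n) ^ 4 := by
      calc 2 ≤ 2 * n := by omega
        _ = (2 * n) ^ 1 := (pow_one _).symm
        _ ≤ (2 * n) ^ 4 := Nat.pow_le_pow_right (by omega) (by omega)
    have h := J4H87.SP.ac_or h2 (AC.inp 0 (cl3 q.2 (e8.symm q.1) : Cl n))
      (AC.inp 0 (⟨∅, by simp⟩ : Cl n))
    have e : (fun x : Cl n → Bool => st3 x q = true) = fun x =>
        x (cl3 q.2 (e8.symm q.1)) = true ∨ x ⟨∅, by simp⟩ = true := by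
      funext x
      simp only [st3, Bool.or_eq_true]
    rw [e]
    exact h

theorem H_iff_Snp : HypH ↔ HypSnp := ⟨fun h => ⟨P3, H_to_P3 h⟩, fun ⟨P, h⟩ => HypP_to_H P h⟩

end Pool.Agent.J4H63.KS
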