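import Pool.Agent.J4H63.KS.Tr2
import Pool.Agent.J4H63.KS.Snp
import Pool.Agent.J4H68.CG.Asm

set_option autoImplicit false

/-! Hypothesis H for q-colourability. -/

namespace Pool.Agent.J4H63.KS

open Finset Pool.Agent.J4H64.SS Pool.Agent.J4H95.SP
open Pool.Agent.J4H68.CG (Pr Col HypCol H_iff_Col)

/-- the graph with the adjacency bits `x` is `q`-colourable -/
def ColQ (q : ℕ) {N : ℕ} (x : Pr N → Bool) : Prop :=
  ∃ χ : Fin N → Fin q, ∀ p : Pr N, x p = true → χ p.1.1 ≠ χ p.1.2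

/-- Hypothesis H for `q`-colourability of graphs on `N` vertices -/
def HypQ (q : ℕ) : Prop :=
  ∃ δ : ℝ, 0 < δ ∧ ∀ d N₀ : ℕ, ∃ N : ℕ, N₀ ≤ N ∧ 1 ≤ N ∧
    ¬ ∃ C : Circ (Pr N), C.WF ∧ C.Depth d ∧
      ((Fintype.card (Pr N) : ℝ) + (C.m : ℝ) ≤ (2 : ℝ) ^ (δ * (N : ℝ))) ∧
      ∀ x, C.Acc x ↔ ColQ q x

theorem hypQ_three : HypQ 3 ↔ HypCol := Iff.rfl

theorem nonempty_Pr (n : ℕ) (hn : 2 ≤ n) : Nonempty (Pr n) :=
  ⟨⟨(⟨0, by omega⟩, ⟨1, by omega⟩), by simp [Fin.lt_def]⟩⟩

theorem card_Pr (n : ℕ) : Fintype.card (Pr n) ≤ (2 * n) ^ 2 := by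
  refine (Fintype.card_subtype_le _).trans ?_
  rw [Fintype.card_prod, Fintype.card_fin]
  nlinarith

/-! ### from q-colourability to monadic SNP -/

/-- q-colourability as a monadic SNP sentence -/
noncomputable def PQ (q : ℕ) : Snp where
  ρ := 0
  ar := fun _ => 2
  m := q
  r := 2
  φ := fun _ R s => decide ((∃ c, s c 0 = true) ∧
    (R 0 id = true → ∀ c, ¬ (s c 0 = true ∧ s c 1 = true)))

/-- adjacency bits as a binary relation -/
def fq (q : ℕ) {n : ℕ} (x : Pr n → Bool) : Inp (PQ q) n → Bool :=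
  fun p => if h : (p.2 (0 : Fin 2) : Fin n) < (p.2 (1 : Fin 2) : Fin n) then
    x ⟨(p.2 (0 : Fin 2), p.2 (1 : Fin 2)), h⟩
    else if h : (p.2 (1 : Fin 2) : Fin n) < (p.2 (0 : Fin 2) : Fin n) then
      x ⟨(p.2 (1 : Fin 2), p.2 (0 : Fin 2)), h⟩ else false

theorem holds_fq (q : ℕ) {n : ℕ} (x : Pr n → Bool) : Holds (PQ q) (fq q x) ↔ ColQ q x := by
  classical
  constructor
  · rintro ⟨S₀, hS⟩
    obtain ⟨S, hS'⟩ : ∃ S : Fin q → Fin n → Bool, ∀ y : Fin 2 → Fin n,
        (∃ c, S c (y 0) = true) ∧ (fq q x ⟨0, y⟩ = true →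
          ∀ c, ¬ (S c (y 0) = true ∧ S c (y 1) = true)) :=
      ⟨S₀, fun y => of_decide_eq_true (hS y)⟩
    have h1 : ∀ v : Fin n, ∃ c, S c v = true := fun v => (hS' (fun _ => v)).1
    choose χ hχ using h1
    refine ⟨χ, fun p hp h => ?_⟩
    have h2 := (hS' ![p.1.1, p.1.2]).2 (by
      simp only [fq, Matrix.cons_val_zero, Matrix.cons_val_one]
      rw [dif_pos p.2]
      exact hp) (χ p.1.1)
    refine h2 ⟨?_, ?_⟩
    · simpa using hχ p.1.1
    · have := hχ p.1.2
      rw [← h] at this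
      simpa using this
  · rintro ⟨χ, hχ⟩
    refine ⟨fun c v => decide (χ v = c), fun y => ?_⟩
    refine decide_eq_true (p := (∃ c, decide (χ (y (0 : Fin 2)) = c) = true) ∧
      (fq q x ⟨0, y ∘ id⟩ = true → ∀ c, ¬ (decide (χ (y (0 : Fin 2)) = c) = true ∧
        decide (χ (y (1 : Fin 2)) = c) = true))) ?_
    refine ⟨⟨χ (y (0 : Fin 2)), by simp⟩, fun h c hc => ?_⟩
    simp only [decide_eq_true_eq] at hc
    simp only [fq, Function.comp_id] at h
    split_ifs at h with h1 h2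
    · exact hχ _ h (hc.1.trans hc.2.symm)
    · exact hχ _ h (hc.2.trans hc.1.symm)

theorem Q_to_H (q : ℕ) (h : HypQ q) : HypH := by
  refine HypP_to_H (PQ q) (transfer2 Pr (Inp (PQ q)) (fun n => ColQ q) (fun n => Holds (PQ q)) id
    1 2 2 le_rfl (fun n => le_rfl) (fun n _ => by simp) (fun n hn => nonempty_Pr n hn)
    (fun n _ => card_Pr n) (fun n => fq q) ?_ (fun n _ x => holds_fq q x) h)
  intro n hn p
  by_cases h1 : (p.2 (0 : Fin 2) : Fin n) < (p.2 (1 : Fin 2) : Fin n)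
  · have e : (fun x : Pr n → Bool => fq q x p = true) = fun x =>
        x ⟨(p.2 (0 : Fin 2), p.2 (1 : Fin 2)), h1⟩ = true := by
      funext x
      simp only [fq]
      rw [dif_pos h1]
    rw [e]
    exact AC.inp _ _
  · by_cases h2 : (p.2 (1 : Fin 2) : Fin n) < (p.2 (0 : Fin 2) : Fin n)
    · have e : (fun x : Pr n → Bool => fq q x p = true) = fun x =>
          x ⟨(p.2 (1 : Fin 2), p.2 (0 : Fin 2)), h2⟩ = true := by
        funext x
        simp only [fq]
        rw [dif_neg h1, dif_pos h2]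
      rw [e]
      exact AC.inp _ _
    · have e : (fun x : Pr n → Bool => fq q x p = true) = fun _ => False := by
        funext x
        simp only [fq]
        rw [dif_neg h1, dif_neg h2]
        simp
      rw [e]
      exact J4H87.SP.ac_const False

/-! ### from 3-colourability to q-colourability -/

/-- `j` new vertices, adjacent to everything -/
def up3q (j : ℕ) {n : ℕ} (x : Pr n → Bool) : Pr (n + j) → Bool :=
  fun p => if h : p.1.2.val < n then
    x ⟨(⟨p.1.1.val, lt_trans (Fin.lt_def.1 p.2) h⟩, ⟨p.1.2.val, h⟩), Fin.lt_def.2 (Fin.lt_def.1 p.2)⟩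
    else true

theorem col_up3q (j : ℕ) {n : ℕ} (x : Pr n → Bool) : ColQ (3 + j) (up3q j x) ↔ ColQ 3 x := by
  classical
  constructor
  · rintro ⟨χ, hχ⟩
    set T : Finset (Fin (3 + j)) := univ.image (fun i : Fin j => χ (Fin.natAdd n i)) with hT
    have hinj : Function.Injective (fun i : Fin j => χ (Fin.natAdd n i)) := by
      intro a b hab
      by_contra hne
      rcases lt_or_gt_of_ne hne with h | h
      · refine hχ ⟨(Fin.natAdd n a, Fin.natAdd n b),
          Fin.lt_def.2 (Nat.add_lt_add_left (Fin.lt_def.1 h) n)⟩ ?_ hab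
        simp [up3q]
      · refine hχ ⟨(Fin.natAdd n b, Fin.natAdd n a),
          Fin.lt_def.2 (Nat.add_lt_add_left (Fin.lt_def.1 h) n)⟩ ?_ hab.symm
        simp [up3q]
    have hTc : Tᶜ.card = 3 := by
      rw [card_compl, hT, card_image_of_injective _ hinj]
      simp
    let e := Finset.equivFinOfCardEq hTc
    have hmem : ∀ v : Fin n, χ (Fin.castAdd j v) ∈ Tᶜ := by
      intro v
      rw [mem_compl, hT, mem_image]
      rintro ⟨i, -, hi⟩
      refine hχ ⟨(Fin.castAdd j v, Fin.natAdd n i), ?_⟩ ?_ hi.symm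
      · simp only [Fin.lt_def, Fin.val_castAdd, Fin.val_natAdd]
        omega
      · simp [up3q]
    refine ⟨fun v => e ⟨χ (Fin.castAdd j v), hmem v⟩, fun p hp h => ?_⟩
    have h1 := congrArg Subtype.val (e.injective h)
    refine hχ ⟨(Fin.castAdd j p.1.1, Fin.castAdd j p.1.2),
      Fin.lt_def.2 (Fin.lt_def.1 p.2)⟩ ?_ h1
    simp only [up3q, Fin.val_castAdd, Fin.is_lt, dite_true, Fin.eta]
    exact hp
  · rintro ⟨χ, hχ⟩
    refine ⟨fun u => if h : u.val < n then ⟨(χ ⟨u.val, h⟩).val, by omega⟩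
      else ⟨3 + (u.val - n), by omega⟩, ?_⟩
    rintro ⟨⟨u, v⟩, huv⟩ hp h
    simp only [Fin.lt_def] at huv
    simp only [up3q] at hp
    by_cases hv : v.val < n
    · have hu : u.val < n := lt_trans huv hv
      rw [dif_pos hv] at hp
      simp only [hu, hv, dite_true, Fin.mk.injEq] at h
      exact hχ _ hp (Fin.ext h)
    · by_cases hu : u.val < n
      · simp only [hu, hv, dite_true, dite_false, Fin.mk.injEq] at h
        have := (χ ⟨u.val, hu⟩).2
        omega
      · simp only [hu, hv, dite_false, Fin.mk.injEq] at h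
        omega

theorem Col_to_Q (j : ℕ) (h : HypQ 3) : HypQ (3 + j) := by
  refine transfer2 Pr Pr (fun n => ColQ 3) (fun n => ColQ (3 + j)) (fun n => n + j) (1 + j) 2 2
    (by omega) (fun n => by omega) (fun n hn => by nlinarith) (fun n hn => nonempty_Pr n hn)
    (fun n _ => card_Pr n) (fun n => up3q j) ?_ (fun n _ x => col_up3q j x) h
  intro n hn p
  by_cases h1 : p.1.2.val < n
  · have e : (fun x : Pr n → Bool => up3q j x p = true) = fun x =>
        x ⟨(⟨p.1.1.val, lt_trans (Fin.lt_def.1 p.2) h1⟩, ⟨p.1.2.val, h1⟩),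
          Fin.lt_def.2 (Fin.lt_def.1 p.2)⟩ = true := by
      funext x
      simp only [up3q]
      rw [dif_pos h1]
    rw [e]
    exact AC.inp _ _
  · have e : (fun x : Pr n → Bool => up3q j x p = true) = fun _ => True := by
      funext x
      simp only [up3q]
      rw [dif_neg h1]
      simp
    rw [e]
    exact J4H87.SP.ac_const True

theorem H_iff_Q (q : ℕ) (hq : 3 ≤ q) : HypH ↔ HypQ q := by
  refine ⟨fun h => ?_, Q_to_H q⟩
  obtain ⟨j, rfl⟩ := Nat.exists_eq_add_of_le hq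
  exact Col_to_Q j (H_iff_Col.1 h)

end Pool.Agent.J4H63.KS
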