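import Pool.Agent.J4H63.IS.Stm

set_option autoImplicit false

/-! # Project KS (helper63): sparsification in constant depth for k-CNF, all k. Exact statements. -/

namespace Pool.Agent.J4H63.KS

open Finset Pool.Agent.J4H64.SS Pool.Agent.J4H95.SP

/-! ## The sparse hypergraph -/

section

variable {V : Type} [DecidableEq V]

/-- sets which are completed to an edge of `H` by `i` elements of `T` -/
def Gam (T : Finset V) (H : Finset V → Prop) (i : ℕ) (s : Finset V) : Prop :=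
  ∃ τ : Finset V, τ ⊆ T ∧ τ.card = i ∧ Disjoint τ s ∧ H (τ ∪ s)

/-- the sets declared valid in the stage `t` (edges of size `r`, threshold `b`) -/
def Vd (r t b : ℕ) (T : Finset V) (H : Finset V → Prop) (s : Finset V) : Prop :=
  (∃ i, 1 ≤ i ∧ i ≤ t ∧ Gam T H i s) ∨
  (s.Nonempty ∧ ∃ i, i ≤ t ∧ t + 1 ≤ s.card + i ∧ s.card + i < r ∧
    ∃ S : Finset (Finset V), S.card = b ∧ ∀ e ∈ S, s ⊆ e ∧ Gam T H i e)

/-- the edges which remain after the stage -/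
def Nx (r t b : ℕ) (T Y X : Finset V) (H : Finset V → Prop) (e : Finset V) : Prop :=
  H e ∧ (∀ s ⊆ e, ¬ Vd r t b T H s) ∧ ∀ v ∈ e, v ∉ Y ∧ v ∉ X

/-- the valid sets produced by the stage; the elements of `Y` are guessed true, those of `X`
(and `T`) false -/
def Ou (r t b : ℕ) (T Y X : Finset V) (H : Finset V → Prop) (s : Finset V) : Prop :=
  Vd r t b T H s ∨ (∃ v ∈ Y, s = {v}) ∨ ∃ v ∈ X, v ∉ s ∧ H (insert v s)

/-- remaining edges before the `j`-th stage; the stage `j` is for `t = r - 1 - j` -/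
def Re (r : ℕ) (b : ℕ → ℕ) (A : ℕ → Fin 3 → Finset V) (H : Finset V → Prop) :
    ℕ → Finset V → Prop
  | 0 => H
  | j + 1 => Nx r (r - 1 - j) (b j) (A j 0) (A j 1) (A j 2) (Re r b A H j)

/-- the valid sets produced from the edges of size `r` -/
def Out (r : ℕ) (b : ℕ → ℕ) (A : ℕ → Fin 3 → Finset V) (H : Finset V → Prop) (s : Finset V) :
    Prop :=
  ∃ j, j < r ∧ Ou r (r - 1 - j) (b j) (A j 0) (A j 1) (A j 2) (Re r b A H j) s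

/-- all sizes from `k` to `2` -/
def Ps (b : ℕ → ℕ → ℕ) (A : ℕ → ℕ → Fin 3 → Finset V) : ℕ → (Finset V → Prop) → Finset V → Prop
  | 0, Φ => Φ
  | 1, Φ => Φ
  | r + 2, Φ => fun e =>
      Re (r + 2) (b (r + 2)) (A (r + 2)) (fun e => Φ e ∧ e.card = r + 2) (r + 2) e ∨
      Ps b A (r + 1) (fun s => s.card < r + 2 ∧
        (Φ s ∨ Out (r + 2) (b (r + 2)) (A (r + 2)) (fun e => Φ e ∧ e.card = r + 2) s)) e

/-- the advice as a function on a finite set -/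
def ext (k : ℕ) (A : Fin (k + 1) × Fin (k + 1) × Fin 3 → Finset V) (r j : ℕ) (c : Fin 3) :
    Finset V :=
  if h : r < k + 1 ∧ j < k + 1 then A (⟨r, h.1⟩, ⟨j, h.2⟩, c) else ∅

end

/-- (SNDK) soundness -/
def S_SNDK : Prop := ∀ (V : Type) [DecidableEq V] (b : ℕ → ℕ → ℕ)
  (A : ℕ → ℕ → Fin 3 → Finset V) (k : ℕ) (Φ : Finset V → Prop), (∀ e, Φ e → e.card ≤ k) →
    ∀ T : Finset V, Hits T (Ps b A k Φ) → Hits T Φ

/-- (CRDK) sizes -/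
def S_CRDK : Prop := ∀ (V : Type) [DecidableEq V] (b : ℕ → ℕ → ℕ)
  (A : ℕ → ℕ → Fin 3 → Finset V) (k : ℕ) (Φ : Finset V → Prop), (∀ e, Φ e → e.card ≤ k) →
    ∀ e, Ps b A k Φ e → e.card ≤ k

/-- (DEGK) bounded degrees, independent of the advice -/
def S_DEGK : Prop := ∀ (k : ℕ) (b : ℕ → ℕ → ℕ), ∃ B : ℕ, ∀ (V : Type) [DecidableEq V]
  (A : ℕ → ℕ → Fin 3 → Finset V) (Φ : Finset V → Prop), (∀ e, Φ e → e.card ≤ k) →
    ∀ (v : V) (S : Finset (Finset V)), (∀ e ∈ S, Ps b A k Φ e ∧ v ∈ e) → S.card ≤ B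

/-! ## Completeness -/

/-- (HIT) a small set `T` contains `b` of the `g` disjoint sets of most instances. -/
def S_HIT : Prop := ∀ (i b q Q : ℕ), 1 ≤ q → ∃ g : ℕ, ∀ (V ι : Type) [Fintype V] [DecidableEq V]
  [DecidableEq ι] (I : Finset V) (K : Finset ι) (F : ι → Fin g → Finset V),
    K.card ≤ Q * Fintype.card V → (∀ κ ∈ K, ∀ l, F κ l ⊆ I ∧ (F κ l).card ≤ i) →
    (∀ κ ∈ K, ∀ l l', l ≠ l' → Disjoint (F κ l) (F κ l')) →
    ∃ T ⊆ I, q * T.card ≤ Fintype.card V ∧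
      q * (K.filter (fun κ => (univ.filter (fun l => F κ l ⊆ T)).card < b)).card ≤ Fintype.card V

/-- (TREE) rich kernels and few other edges -/
def S_TREE : Prop := ∀ (V : Type) [DecidableEq V] (r : ℕ) (B : ℕ → ℕ) (E : Finset (Finset V))
  (κ₀ : Finset V), (∀ e ∈ E, e.card = r ∧ κ₀ ⊆ e) → ∃ 𝒯 : Finset (Finset V),
    (∀ j, (𝒯.filter (fun κ => κ.card = j)).card ≤ ∏ i ∈ Ico κ₀.card j, (r * B i + 1)) ∧
    (∀ κ ∈ 𝒯, κ₀ ⊆ κ ∧ κ.card < r ∧ ∃ f : Fin (B κ.card) → Finset V,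
      (∀ l, f l ∈ E ∧ κ ⊆ f l) ∧ ∀ l l', l ≠ l' → f l ∩ f l' = κ) ∧
    (E.filter (fun e => ∀ κ ∈ 𝒯, ¬ κ ⊆ e)).card ≤ ∏ i ∈ Ico κ₀.card r, (r * B i + 1)

/-- (STEP) one stage -/
def S_STEP : Prop := ∀ (r t D q : ℕ), 1 ≤ q → 1 ≤ t → t < r → ∃ D' : ℕ, ∀ (V : Type) [Fintype V]
  [DecidableEq V] (H : Finset V → Prop) (I : Finset V), (∀ e, H e → e.card = r ∧ ¬ e ⊆ I) →
    (∀ x ∈ I, ∀ S : Finset (Finset V), (∀ e ∈ S, H e ∧ x ∈ e ∧ t + 1 ≤ (e ∩ I).card) →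
      S.card ≤ D) →
    ∃ T Y X : Finset V, T ⊆ I ∧ Disjoint Y I ∧ X ⊆ I ∧ q * T.card ≤ Fintype.card V ∧
      q * Y.card ≤ Fintype.card V ∧ q * X.card ≤ Fintype.card V ∧
      ∀ x ∈ I, ∀ S : Finset (Finset V),
        (∀ e ∈ S, Nx r t (2 ^ r * D + 1) T Y X H e ∧ x ∈ e ∧ t ≤ (e ∩ I).card) → S.card ≤ D'

/-- (VAL) the sets produced by a stage are not contained in `I`. -/
def S_VAL : Prop := ∀ (V : Type) [DecidableEq V] (r t D : ℕ) (H : Finset V → Prop)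
  (T Y X I : Finset V), 2 ≤ r → (∀ e, H e → e.card = r ∧ ¬ e ⊆ I) →
    (∀ x ∈ I, ∀ S : Finset (Finset V), (∀ e ∈ S, H e ∧ x ∈ e ∧ t + 1 ≤ (e ∩ I).card) →
      S.card ≤ D) →
    T ⊆ I → Disjoint Y I → X ⊆ I → ∀ s, Ou r t (2 ^ r * D + 1) T Y X H s → ¬ s ⊆ I

/-- (LVL) all stages for the edges of size `r` -/
def S_LVL : Prop := ∀ (r q : ℕ), 2 ≤ r → 1 ≤ q → ∃ b : ℕ → ℕ, ∀ (V : Type) [Fintype V]
  [DecidableEq V] (H : Finset V → Prop) (I : Finset V), (∀ e, H e → e.card = r ∧ ¬ e ⊆ I) →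
    ∃ A : ℕ → Fin 3 → Finset V, (∀ j c, q * (A j c).card ≤ Fintype.card V) ∧
      ∀ s, Out r b A H s → ¬ s ⊆ I

/-- (CPLK) completeness -/
def S_CPLK : Prop := ∀ (k q : ℕ), 1 ≤ q → ∃ b : ℕ → ℕ → ℕ, ∀ (V : Type) [Fintype V]
  [DecidableEq V] (Φ : Finset V → Prop) (T : Finset V), (∀ e, Φ e → e.card ≤ k) → Hits T Φ →
    ∃ A : Fin (k + 1) × Fin (k + 1) × Fin 3 → Finset V,
      (∀ c, q * (A c).card ≤ Fintype.card V) ∧ Hits T (Ps b (ext k A) k Φ)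

/-! ## Formulas and circuits -/

/-- clauses of at most `k` literals -/
abbrev ClK (k n : ℕ) : Type := {c : Finset (Fin n × Bool) // c.card ≤ k}

/-- satisfiable -/
def SatK {k n : ℕ} (x : ClK k n → Bool) : Prop :=
  ∃ a : Fin n → Bool, ∀ c : ClK k n, x c = true → ∃ l ∈ c.1, a l.1 = l.2

/-- Hypothesis H for k-CNF-SAT -/
def HypK (k : ℕ) : Prop :=
  ∃ δ : ℝ, 0 < δ ∧ ∀ d N₀ : ℕ, ∃ n : ℕ, N₀ ≤ n ∧ 1 ≤ n ∧
    ¬ ∃ C : Circ (ClK k n), C.WF ∧ C.Depth d ∧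
      ((Fintype.card (ClK k n) : ℝ) + (C.m : ℝ) ≤ (2 : ℝ) ^ (δ * (n : ℝ))) ∧
      ∀ x, C.Acc x ↔ SatK x

/-- the hypergraph of an indicator vector -/
def HyK {k n : ℕ} (x : ClK k n → Bool) (e : Finset (Fin n × Bool)) : Prop :=
  ∃ h : e.card ≤ k, x ⟨e, h⟩ = true

/-- every literal occurs in at most `B` clauses -/
def SpK {k n : ℕ} (B : ℕ) (x : ClK k n → Bool) : Prop :=
  ∀ l : Fin n × Bool, (univ.filter (fun c : ClK k n => x c = true ∧ l ∈ c.1)).card ≤ B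

open Classical in
/-- the sparse formula of the advice `A` -/
noncomputable def Sf {k n : ℕ} (b : ℕ → ℕ → ℕ)
    (A : Fin (k + 1) × Fin (k + 1) × Fin 3 → Finset (Fin n × Bool)) (x : ClK k n → Bool) :
    ClK k n → Bool :=
  fun q => decide (Ps b (ext k A) k (HyK x) q.1)

/-- (ACK) the bits are computed by trees of constant depth -/
def S_ACK : Prop := ∀ (k : ℕ) (b : ℕ → ℕ → ℕ), ∃ K d₀ : ℕ, ∀ n : ℕ, 1 ≤ n →
  ∀ (A : Fin (k + 1) × Fin (k + 1) × Fin 3 → Finset (Fin n × Bool)) (q : ClK k n),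
    AC ((2 * n) ^ K) d₀ (fun x : ClK k n → Bool => Sf b A x q = true)

/-- (NUMK) the number of advices -/
def S_NUMK : Prop := ∀ (k : ℕ) (ε : ℝ), 0 < ε → ∃ q : ℕ, 1 ≤ q ∧ ∀ n : ℕ, 1 ≤ n →
  (Fintype.card {A : Fin (k + 1) × Fin (k + 1) × Fin 3 → Finset (Fin n × Bool) //
    ∀ c, q * (A c).card ≤ Fintype.card (Fin n × Bool)} : ℝ) ≤ (2 : ℝ) ^ (ε * (n : ℝ))

/-- (RK) sparse k-CNFs to 3-CNFs with linearly many variables -/
def S_RK : Prop := ∀ (k B : ℕ), ∃ c K d₀ : ℕ, ∀ n : ℕ, 1 ≤ n → ∃ N : ℕ, n ≤ N ∧ N ≤ c * n ∧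
  ∃ G : (ClK k n → Bool) → Cl N → Bool,
    (∀ q, AC ((2 * n) ^ K) d₀ (fun x => G x q = true)) ∧ ∀ x, SpK B x → (Sat (G x) ↔ SatK x)

/-- (SBT) substitution of trees into trees -/
def S_SBT : Prop := ∀ (I J : Type) (w d d' : ℕ) (f : (J → Bool) → Prop)
  (g : (I → Bool) → J → Bool), AC w d f → (∀ j, AC w d' (fun x => g x j = true)) →
    AC w (d + d') (fun x => f (g x))

/-- (CLK) the number of clauses -/
def S_CLK : Prop := ∀ k n : ℕ, 1 ≤ n → Fintype.card (ClK k n) ≤ (2 * n) ^ (k + 1)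

/-- (SPL) the sparsification lemma -/
def S_SPL : Prop := ∀ (k : ℕ) (ε : ℝ), 0 < ε → ∃ B K d : ℕ, ∀ n : ℕ, 1 ≤ n →
  ∃ (β : Type) (_ : Fintype β) (ψ : β → (ClK k n → Bool) → ClK k n → Bool),
    (Fintype.card β : ℝ) ≤ (2 : ℝ) ^ (ε * (n : ℝ)) ∧ Nonempty β ∧
    (∀ t q, AC ((2 * n) ^ K) d (fun x => ψ t x q = true)) ∧ (∀ t x, SpK B (ψ t x)) ∧
    ∀ x (a : Fin n → Bool), (∀ c : ClK k n, x c = true → ∃ l ∈ c.1, a l.1 = l.2) ↔
      ∃ t, ∀ c : ClK k n, ψ t x c = true → ∃ l ∈ c.1, a l.1 = l.2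

/-- (SPLA) assembly of the sparsification lemma -/
def S_SPLA : Prop := S_SNDK → S_CRDK → S_DEGK → S_CPLK → S_ACK → S_NUMK → S_SPL

/-- (HKA) from k-CNF to 3-CNF -/
def S_HKA : Prop := S_SPL → S_RK → S_SBT → S_CLK → Pool.Agent.J4H63.IS.S_OR →
  ∀ k : ℕ, HypK k → HypH

/-- (HKB) from 3-CNF to k-CNF -/
def S_HKB : Prop := S_CLK → ∀ k : ℕ, 3 ≤ k → HypH → HypK k

end Pool.Agent.J4H63.KS
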