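import Pool.Agent.J4H63.KS.Tr

set_option autoImplicit false

/-! Transfer of Hypothesis H along reductions of constant depth, for `n ≥ 2`. -/

namespace Pool.Agent.J4H63.KS

open Finset Pool.Agent.J4H64.SS Pool.Agent.J4H95.SP

theorem transfer2 (I J : ℕ → Type) [∀ n, Fintype (I n)] [∀ n, Fintype (J n)]
    (A : ∀ n, (I n → Bool) → Prop) (B : ∀ n, (J n → Bool) → Prop) (g : ℕ → ℕ) (M K d₀ : ℕ)
    (hM : 1 ≤ M) (hg1 : ∀ n, n ≤ g n) (hg2 : ∀ n, 2 ≤ n → g n ≤ M * n)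
    (hI : ∀ n, 2 ≤ n → Nonempty (I n)) (hc : ∀ n, 2 ≤ n → Fintype.card (I n) ≤ (2 * n) ^ K)
    (F : ∀ n, (I n → Bool) → J (g n) → Bool)
    (hF : ∀ n, 2 ≤ n → ∀ q, AC ((2 * n) ^ K) d₀ (fun x => F n x q = true))
    (hAB : ∀ n, 2 ≤ n → ∀ x, B (g n) (F n x) ↔ A n x)
    (h : ∃ δ : ℝ, 0 < δ ∧ ∀ d N₀ : ℕ, ∃ n : ℕ, N₀ ≤ n ∧ 1 ≤ n ∧
      ¬ ∃ C : Circ (I n), C.WF ∧ C.Depth d ∧
        ((Fintype.card (I n) : ℝ) + (C.m : ℝ) ≤ (2 : ℝ) ^ (δ * (n : ℝ))) ∧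
        ∀ x, C.Acc x ↔ A n x) :
    ∃ δ : ℝ, 0 < δ ∧ ∀ d N₀ : ℕ, ∃ n : ℕ, N₀ ≤ n ∧ 1 ≤ n ∧
      ¬ ∃ C : Circ (J n), C.WF ∧ C.Depth d ∧
        ((Fintype.card (J n) : ℝ) + (C.m : ℝ) ≤ (2 : ℝ) ^ (δ * (n : ℝ))) ∧
        ∀ x, C.Acc x ↔ B n x := by
  obtain ⟨δ, hδ, hS⟩ := h
  obtain ⟨N₁, hN₁⟩ := J4H17.SP.poly_le (δ / 4) (by positivity) ((K + 1) * (2 * d₀))
  obtain ⟨N₂, hN₂⟩ := J4H17.SP.poly_le (δ / 4) (by positivity) K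
  have hM0 : (0 : ℝ) < M := by exact_mod_cast hM
  refine ⟨δ / 4 / M, by positivity, fun d N₀ => ?_⟩
  obtain ⟨n, hn, hn1, hno⟩ := hS (d + (d₀ + 1)) (max N₀ (max N₁ (max N₂ (max 2 ⌈4 / δ⌉₊))))
  have hnN₁ : N₁ ≤ n := (le_max_left _ _).trans ((le_max_right _ _).trans hn)
  have hn' : max N₂ (max 2 ⌈4 / δ⌉₊) ≤ n := (le_max_right _ _).trans ((le_max_right _ _).trans hn)
  have hn2 : 2 ≤ n := (le_max_left _ _).trans ((le_max_right _ _).trans hn')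
  have hnN₂ : N₂ ≤ n := (le_max_left _ _).trans hn'
  have hnδ : 4 / δ ≤ n := by
    have h1 : ⌈4 / δ⌉₊ ≤ n := (le_max_right _ _).trans ((le_max_right _ _).trans hn')
    exact (Nat.le_ceil _).trans (by exact_mod_cast h1)
  refine ⟨g n, ((le_max_left _ _).trans hn).trans (hg1 n), hn1.trans (hg1 n), ?_⟩
  rintro ⟨D, hwf, hd, hsize, hacc⟩
  refine hno ?_
  have hw2 : 2 ≤ (2 * n) ^ (K + 1) := by
    calc 2 ≤ 2 * n := by omega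
      _ = (2 * n) ^ 1 := (pow_one _).symm
      _ ≤ (2 * n) ^ (K + 1) := Nat.pow_le_pow_right (by omega) (by omega)
  have hwK : (2 * n) ^ K ≤ (2 * n) ^ (K + 1) := Nat.pow_le_pow_right (by omega) (by omega)
  have hne : Nonempty (I n) := hI n hn2
  obtain ⟨C, g1, g2, g3, g4⟩ := t_SUB (I n) (J (g n)) ((2 * n) ^ (K + 1)) d d₀ D hw2 hwf hd
    (F n) (fun q => J4H17.SP.AC.mono hwK (hF n hn2 q))
  refine ⟨C, g1, g2, ?_, fun x => by rw [g4, hacc, hAB n hn2]⟩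
  set X : ℝ := (2 : ℝ) ^ (δ / 4 * (n : ℝ)) with hX
  have hX2 : 2 ≤ X := by
    have h1 : (1 : ℝ) ≤ δ / 4 * n := by
      rw [div_le_iff₀ hδ] at hnδ
      linarith
    calc (2 : ℝ) = (2 : ℝ) ^ (1 : ℝ) := (Real.rpow_one 2).symm
      _ ≤ X := Real.rpow_le_rpow_of_exponent_le (by norm_num) h1
  have hsize' : (Fintype.card (J (g n)) : ℝ) + (D.m : ℝ) ≤ X := by
    refine hsize.trans ?_
    apply Real.rpow_le_rpow_of_exponent_le (by norm_num)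
    have h1 : ((g n : ℕ) : ℝ) ≤ M * n := by exact_mod_cast hg2 n hn2
    calc δ / 4 / M * ((g n : ℕ) : ℝ) ≤ δ / 4 / M * (M * n) := by gcongr
      _ = δ / 4 * n := by field_simp
  have hW : ((((2 * n) ^ ((K + 1) * (2 * d₀))) : ℕ) : ℝ) ≤ X := by
    exact_mod_cast hN₁ n hnN₁
  have hcl : (Fintype.card (I n) : ℝ) ≤ X := by
    refine le_trans ?_ (hN₂ n hnN₂)
    exact_mod_cast hc n hn2
  have g3' : (C.m : ℝ) ≤ (D.m : ℝ) + (Fintype.card (J (g n)) : ℝ) *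
      ((((2 * n) ^ ((K + 1) * (2 * d₀))) : ℕ) : ℝ) := by
    rw [← pow_mul] at g3
    exact_mod_cast g3
  have hW1 : (1 : ℝ) ≤ ((((2 * n) ^ ((K + 1) * (2 * d₀))) : ℕ) : ℝ) := by
    have : 1 ≤ (2 * n) ^ ((K + 1) * (2 * d₀)) := Nat.one_le_pow _ _ (by omega)
    exact_mod_cast this
  have e1 : (2 : ℝ) ^ (δ * (n : ℝ)) = (X * X) * (X * X) := by
    rw [hX, ← Real.rpow_add (by norm_num), ← Real.rpow_add (by norm_num)]
    congr 1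
    ring
  rw [e1]
  exact size_aux hX2 hcl hW1 hW hsize' (Nat.cast_nonneg _) (Nat.cast_nonneg _) g3'

end Pool.Agent.J4H63.KS
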